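import Pool.Agent.Results.MP_beddab_an.WeakStarChebyshev

set_option autoImplicit false

/-!
# Weak star closed Chebyshev subspaces of finite codimension: almost all of them, and flags

For a separable Banach space `E` over `𝕜 = ℝ` or `ℂ`:

* for `n ≤ dim E` the annihilator of almost every `n`-tuple of vectors (in the sense of Baire
  category) is a weak star closed Chebyshev subspace of `E*` of codimension `n`;
* if `dim E = ∞`, then almost every sequence in `E` is dense and has the property that the
  annihilator of each of its finite subfamilies is a Chebyshev subspace of the right codimension;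
* so `E*` has a decreasing sequence of weak star closed Chebyshev subspaces of codimensions
  `0, 1, 2, …` with intersection zero.

For normed spaces which are not complete the statement fails. The starting result
`WeakStarChebyshev` of this problem is the existence of one Chebyshev subspace of each codimension
`n ≤ dim E` for complete `E`, and the counterexample for incomplete spaces; its lemmas are used.
-/

open Set Filter Topology TopologicalSpace

namespace Pool.Agent.Results.MP_beddab_an.ResidualFlags

open WeakStarChebyshev (IsChebyshev IsWeakStarClosed Ann HasWeakStarChebyshev Bad)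

universe u

section density

variable {𝕜 : Type*} [RCLike 𝕜] {E : Type*} [NormedAddCommGroup E] [NormedSpace 𝕜 E] {n : ℕ}

/-- linearly independent tuples are dense, if there are any -/
theorem dense_linearIndependent (hn : (n : Cardinal) ≤ Module.rank 𝕜 E) :
    Dense {y : Fin n → E | LinearIndependent 𝕜 y} := by
  obtain ⟨z, hz⟩ := Module.le_rank_iff.mp hn
  -- dual functionals
  have hdual : ∀ a : Fin n → 𝕜, ∃ g : StrongDual 𝕜 E, ∀ i, g (z i) = a i := by
    intro a
    have hinj : Function.Injective (Fintype.linearCombination 𝕜 z) :=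
      linearIndependent_iff_injective_fintypeLinearCombination.mp hz
    obtain ⟨g, hg⟩ := (SeparatingDual.dualMap_surjective_iff.mpr hinj)
      (Fintype.linearCombination 𝕜 a)
    refine ⟨g, fun i => ?_⟩
    have h1 := LinearMap.congr_fun hg (Pi.single i 1)
    simpa using h1
  choose g hg using fun i : Fin n => hdual (Pi.single i 1)
  intro y
  rw [Metric.mem_closure_iff]
  intro ε hε
  set A : Matrix (Fin n) (Fin n) 𝕜 := Matrix.of fun i j => - g i (y j) with hA
  -- a small parameter which is not a root of the characteristic polynomial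
  have hfin : {t : 𝕜 | (A.charpoly).IsRoot t}.Finite :=
    Polynomial.finite_setOfPred_isRoot (A.charpoly_monic.ne_zero)
  have hball : (Metric.ball (0 : 𝕜) (ε / (‖z‖ + 1))).Infinite := by
    have h1 : (0 : ℝ) < ε / (‖z‖ + 1) := by positivity
    exact infinite_of_mem_nhds (0 : 𝕜) (Metric.ball_mem_nhds _ h1)
  obtain ⟨t, ht1, ht2⟩ := (hball.sdiff hfin).nonempty
  refine ⟨fun j => y j + t • z j, ?_, ?_⟩
  · have hdet : (Matrix.of fun i j => g i (y j + t • z j) : Matrix (Fin n) (Fin n) 𝕜).det ≠ 0 := by
      intro h
      apply ht2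
      show (A.charpoly).eval t = 0
      rw [Matrix.eval_charpoly]
      rw [← h]
      congr 1
      ext i j
      simp only [Matrix.sub_apply, Matrix.scalar_apply, Matrix.diagonal_apply, hA, Matrix.of_apply,
        map_add, map_smul, hg, smul_eq_mul, Pi.single_apply]
      by_cases hij : i = j
      · subst hij
        simp
        ring
      · simp [hij, Ne.symm hij]
    have hcols := Matrix.linearIndependent_cols_of_det_ne_zero hdet
    let G : E →ₗ[𝕜] (Fin n → 𝕜) := LinearMap.pi fun i => (g i : E →ₗ[𝕜] 𝕜)
    refine LinearIndependent.of_comp G ?_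
    exact hcols
  · have h1 : ‖t‖ < ε / (‖z‖ + 1) := by simpa using ht1
    rw [lt_div_iff₀ (by positivity)] at h1
    rw [dist_pi_lt_iff hε]
    intro j
    rw [dist_eq_norm]
    have h2 : y j - (y j + t • z j) = -(t • z j) := by abel
    rw [h2, norm_neg, norm_smul]
    have h3 := norm_le_pi_norm z j
    have h4 := norm_nonneg t
    nlinarith

/-- `G` is weak* closed, Chebyshev and of codimension `n` -/
def ChebCodim (𝕜 : Type*) [RCLike 𝕜] {E : Type*} [NormedAddCommGroup E] [NormedSpace 𝕜 E]
    (G : Submodule 𝕜 (StrongDual 𝕜 E)) (n : ℕ) : Prop :=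
  IsWeakStarClosed G ∧ Module.rank 𝕜 (StrongDual 𝕜 E ⧸ G) = (n : Cardinal) ∧
    IsChebyshev (G : Set (StrongDual 𝕜 E))

/-- the annihilator of the tuple `y` is weak* closed, Chebyshev and of codimension `n` -/
def Good (𝕜 : Type*) [RCLike 𝕜] {E : Type*} [NormedAddCommGroup E] [NormedSpace 𝕜 E] {n : ℕ}
    (y : Fin n → E) : Prop :=
  ChebCodim 𝕜 (Ann 𝕜 y) n

/-- for `n ≤ dim E` the good `n`-tuples are residual in `E^n` -/
def TuplesGood (𝕜 : Type*) [RCLike 𝕜] (E : Type*) [NormedAddCommGroup E] [NormedSpace 𝕜 E] :
    Prop :=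
  ∀ n : ℕ, (n : Cardinal) ≤ Module.rank 𝕜 E →
    {y : Fin n → E | Good 𝕜 y} ∈ residual (Fin n → E)

/-- the dense sequences all of whose injective finite subfamilies are good are residual -/
def SequencesGood (𝕜 : Type*) [RCLike 𝕜] (E : Type*) [NormedAddCommGroup E] [NormedSpace 𝕜 E] :
    Prop :=
  {x : ℕ → E | DenseRange x ∧ ∀ (n : ℕ) (σ : Fin n → ℕ), Function.Injective σ →
    Good 𝕜 (fun i => x (σ i))} ∈ residual (ℕ → E)

/-- a decreasing sequence of weak* closed Chebyshev subspaces of the dual, of codimension
`0, 1, 2, ...`, with intersection zero -/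
def HasFlag (𝕜 : Type*) [RCLike 𝕜] (E : Type*) [NormedAddCommGroup E] [NormedSpace 𝕜 E] :
    Prop :=
  ∃ Γ : ℕ → Submodule 𝕜 (StrongDual 𝕜 E), Antitone Γ ∧ (⨅ n, Γ n) = ⊥ ∧
    ∀ n, ChebCodim 𝕜 (Γ n) n

/-- countably many dense open sets of tuples whose intersection consists of good tuples -/
theorem exists_open [SeparableSpace E] (hn : (n : Cardinal) ≤ Module.rank 𝕜 E) :
    ∃ O : ℕ × ℕ × ℕ → Set (Fin n → E), (∀ j, IsOpen (O j)) ∧ (∀ j, Dense (O j)) ∧
      ∀ y, (∀ j, y ∈ O j) → Good 𝕜 y := by
  set LI : Set (Fin n → E) := {y | LinearIndependent 𝕜 y} with hLI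
  have hLIo : IsOpen LI := isOpen_setOfPred_linearIndependent
  have hLId : Dense LI := dense_linearIndependent hn
  refine ⟨fun j => (Bad 𝕜 (denseSeq E j.1) (1 / ((j.2.1 : ℝ) + 1)) (j.2.2 : ℕ))ᶜ ∩ LI,
    fun j => (WeakStarChebyshev.isClosed_Bad _ _ _).isOpen_compl.inter hLIo, fun j => ?_,
    fun y hy => ?_⟩
  · refine Dense.inter_of_isOpen_left ?_ hLId (WeakStarChebyshev.isClosed_Bad _ _ _).isOpen_compl
    rw [dense_iff_inter_open]
    intro W hW hWn
    obtain ⟨y, hyW, hyL⟩ := hLId.inter_open_nonempty W hW hWn
    have h1 := WeakStarChebyshev.not_subset_Bad (𝕜 := 𝕜) (x := denseSeq E j.1) (R := (j.2.2 : ℕ))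
      (show (0 : ℝ) < 1 / ((j.2.1 : ℝ) + 1) by positivity) hW hyW hyL
    rw [Set.not_subset] at h1
    obtain ⟨w, hwW, hwB⟩ := h1
    exact ⟨w, hwW, hwB⟩
  · have hli : LinearIndependent 𝕜 y := (hy (0, 0, 0)).2
    exact ⟨WeakStarChebyshev.isWeakStarClosed_Ann y, WeakStarChebyshev.rank_Ann hli,
      WeakStarChebyshev.isChebyshev_Ann fun k m r => (hy (k, m, r)).1⟩

/-- preimages of dense sets of tuples in the space of sequences -/
theorem dense_comp (σ : Fin n → ℕ) (hσ : Function.Injective σ) {O : Set (Fin n → E)}
    (hO : Dense O) : Dense {x : ℕ → E | (fun i => x (σ i)) ∈ O} := by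
  rw [dense_iff_inter_open]
  rintro W hW ⟨w, hw⟩
  set ρ : (Fin n → E) → (ℕ → E) := fun y => Function.extend σ y w with hρ
  have hρc : Continuous ρ := by
    refine continuous_pi fun k => ?_
    by_cases hk : ∃ i, σ i = k
    · obtain ⟨i, rfl⟩ := hk
      have : (fun y : Fin n → E => ρ y (σ i)) = fun y => y i := by
        funext y
        exact hσ.extend_apply y w i
      rw [this]
      exact continuous_apply i
    · have : (fun y : Fin n → E => ρ y k) = fun _ => w k := by
        funext y
        exact Function.extend_apply' y w k hk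
      rw [this]
      exact continuous_const
  have hρw : ρ (fun i => w (σ i)) = w := by
    funext k
    by_cases hk : ∃ i, σ i = k
    · obtain ⟨i, rfl⟩ := hk
      exact hσ.extend_apply _ w i
    · exact Function.extend_apply' _ w k hk
  obtain ⟨y, hy1, hy2⟩ := hO.inter_open_nonempty _ (hW.preimage hρc)
    ⟨fun i => w (σ i), by rw [mem_preimage, hρw]; exact hw⟩
  refine ⟨ρ y, hy1, ?_⟩
  show (fun i => ρ y (σ i)) ∈ O
  have : (fun i => ρ y (σ i)) = y := funext fun i => hσ.extend_apply y w i
  rw [this]
  exact hy2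

end density

/-- For a separable Banach space `E` over the real or complex numbers:

(1) if `n ≤ dim E`, the annihilators of all `n`-tuples in a residual subset of `E ^ n` are weak
star closed Chebyshev subspaces of `E*` of codimension `n`;

(2) if `E` is infinite dimensional, a residual set of sequences `x` in `E` is such that `x` is
dense and the annihilator of each finite subfamily of `n` terms of `x` is a weak star closed
Chebyshev subspace of codimension `n`;

(3) if `E` is infinite dimensional, `E*` has a decreasing sequence of weak star closed Chebyshev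
subspaces `Γ n` of codimension `n` whose intersection is zero.

(4) Completeness cannot be omitted: there is a separable infinite dimensional real normed space
whose dual has no weak star closed Chebyshev subspace of any finite codimension `n ≥ 1`. -/
theorem result :
    (∀ (𝕜 : Type) [RCLike 𝕜] (E : Type u) [NormedAddCommGroup E] [NormedSpace 𝕜 E]
      [CompleteSpace E] [SeparableSpace E],
      TuplesGood 𝕜 E ∧ (¬ FiniteDimensional 𝕜 E → SequencesGood 𝕜 E ∧ HasFlag 𝕜 E)) ∧
    (∃ (E : Type) (_ : NormedAddCommGroup E) (_ : NormedSpace ℝ E), SeparableSpace E ∧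
      ¬ FiniteDimensional ℝ E ∧ ∀ n : ℕ, 1 ≤ n → ¬ HasWeakStarChebyshev ℝ E n) := by
  refine ⟨fun 𝕜 _ E _ _ _ _ => ?_, WeakStarChebyshev.result.{0}.2⟩
  have hres : ¬ FiniteDimensional 𝕜 E →
      {x : ℕ → E | DenseRange x ∧ ∀ (n : ℕ) (σ : Fin n → ℕ), Function.Injective σ →
        Good 𝕜 (fun i => x (σ i))} ∈ residual (ℕ → E) := by
    intro hinf
    have hrank : ∀ n : ℕ, (n : Cardinal) ≤ Module.rank 𝕜 E := by
      intro n
      have h1 : Cardinal.aleph0 ≤ Module.rank 𝕜 E := by
        by_contra h
        exact hinf (Module.rank_lt_aleph0_iff.1 (not_le.1 h))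
      exact (Cardinal.natCast_lt_aleph0 (n := n)).le.trans h1
    choose O hO1 hO2 hO3 using fun n => exists_open (𝕜 := 𝕜) (E := E) (hrank n)
    have hA : ∀ (n : ℕ) (σ : {σ : Fin n → ℕ // Function.Injective σ}) (j : ℕ × ℕ × ℕ),
        {x : ℕ → E | (fun i => x (σ.1 i)) ∈ O n j} ∈ residual (ℕ → E) := by
      intro n σ j
      refine residual_of_dense_open ?_ ?_
      · exact (hO1 n j).preimage (continuous_pi fun i => continuous_apply (σ.1 i))
      · exact dense_comp σ.1 σ.2 (hO2 n j)
    have hB : ∀ k m : ℕ, {x : ℕ → E | ∃ i, dist (x i) (denseSeq E k) < 1 / ((m : ℝ) + 1)} ∈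
        residual (ℕ → E) := by
      intro k m
      refine residual_of_dense_open ?_ ?_
      · have : {x : ℕ → E | ∃ i, dist (x i) (denseSeq E k) < 1 / ((m : ℝ) + 1)} =
            ⋃ i, {x : ℕ → E | dist (x i) (denseSeq E k) < 1 / ((m : ℝ) + 1)} := by
          ext x
          simp
        rw [this]
        exact isOpen_iUnion fun i => isOpen_lt (by fun_prop) continuous_const
      · rw [dense_iff_inter_open]
        rintro W hW ⟨w, hw⟩
        obtain ⟨I, v, hv1, hv2⟩ := isOpen_pi_iff.1 hW w hw
        obtain ⟨i, hi⟩ := Infinite.exists_notMem_finset I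
        refine ⟨Function.update w i (denseSeq E k), hv2 ?_, i, ?_⟩
        · intro l hl
          have hli : l ≠ i := fun h => hi (h ▸ hl)
          rw [Function.update_of_ne hli]
          exact (hv1 l hl).2
        · rw [Function.update_self, dist_self]
          positivity
    have h1 := (eventually_countable_forall (l := residual (ℕ → E))).2 fun n =>
      (eventually_countable_forall (l := residual (ℕ → E))).2
        fun σ : {σ : Fin n → ℕ // Function.Injective σ} =>
        (eventually_countable_forall (l := residual (ℕ → E))).2 fun j => hA n σ j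
    have h2 := (eventually_countable_forall (l := residual (ℕ → E))).2 fun k =>
      (eventually_countable_forall (l := residual (ℕ → E))).2 fun m => hB k m
    filter_upwards [h1, h2] with x hx1 hx2
    refine ⟨?_, fun n σ hσ => hO3 n _ fun j => hx1 n ⟨σ, hσ⟩ j⟩
    intro v
    rw [Metric.mem_closure_iff]
    intro ε hε
    obtain ⟨m, hm⟩ := exists_nat_one_div_lt (half_pos hε)
    obtain ⟨_, ⟨k, rfl⟩, hk⟩ := Metric.mem_closure_iff.1 (denseRange_denseSeq E v) (ε / 2)
      (half_pos hε)
    obtain ⟨i, hi⟩ := hx2 k m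
    refine ⟨x i, ⟨i, rfl⟩, ?_⟩
    have h3 := dist_triangle_right v (x i) (denseSeq E k)
    have h4 : dist (x i) (denseSeq E k) < 1 / ((m : ℝ) + 1) := hi
    linarith
  refine ⟨fun n hn => ?_, fun hinf => ⟨hres hinf, ?_⟩⟩
  · obtain ⟨O, hO1, hO2, hO3⟩ := exists_open (𝕜 := 𝕜) (E := E) hn
    have h1 := (eventually_countable_forall (l := residual (Fin n → E))).2 fun j =>
      residual_of_dense_open (hO1 j) (hO2 j)
    filter_upwards [h1] with y hy
    exact hO3 y hy
  · obtain ⟨x, hx1, hx2⟩ := (dense_of_mem_residual (hres hinf)).nonempty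
    refine ⟨fun n => Ann 𝕜 (fun i : Fin n => x i), ?_, ?_, fun n => ?_⟩
    · intro m n hmn f hf i
      exact hf ⟨i.1, lt_of_lt_of_le i.2 hmn⟩
    · rw [eq_bot_iff]
      intro f hf
      rw [Submodule.mem_iInf] at hf
      have h3 : ∀ k, f (x k) = 0 := fun k => hf (k + 1) ⟨k, Nat.lt_succ_self k⟩
      have h4 : (f : E → 𝕜) = fun _ => 0 :=
        hx1.equalizer f.continuous continuous_const (funext h3)
      rw [Submodule.mem_bot]
      exact ContinuousLinearMap.ext fun v => congrFun h4 v
    · exact hx2 n (fun i => i.1) Fin.val_injective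

end Pool.Agent.Results.MP_beddab_an.ResidualFlags
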